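import Pool.Agent.Helper13.FR.Stmts

set_option autoImplicit false

namespace Pool.Agent.Helper13.FR

open Finset Filter Pool.Agent.Helper16.MD

/-- one summand of the block sums -/
noncomputable def unf_F (n Λ a : ℕ) (φ G : ℕ → ℂ) (N t : ℕ) : ℝ :=
  ‖∑ x ∈ (Icc 1 N).filter (fun x => (x + a) / (n * Λ) = t),
    ((ArithmeticFunction.moebius x : ℤ) : ℂ) * (φ x * G ((x + a) / n))‖

theorem unf_BS (n Λ a : ℕ) (φ G : ℕ → ℂ) (N : ℕ) :
    BS n Λ a φ G N = ∑ t ∈ range (N + a + 1), unf_F n Λ a φ G N t := rfl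

theorem unf_zero (n Λ a : ℕ) (φ G : ℕ → ℂ) (N t : ℕ)
    (h : ∀ x ∈ Icc 1 N, (x + a) / (n * Λ) ≠ t) : unf_F n Λ a φ G N t = 0 := by
  unfold unf_F
  rw [Finset.filter_false_of_mem h, Finset.sum_empty, norm_zero]

theorem unf_set (n Λ a : ℕ) (φ G : ℕ → ℂ) (N : ℕ) (T : Finset ℕ)
    (hT : ∀ x ∈ Icc 1 N, (x + a) / (n * Λ) ∈ T) :
    BS n Λ a φ G N = ∑ t ∈ T, unf_F n Λ a φ G N t := by
  classical
  have h1 : ∑ t ∈ range (N + a + 1), unf_F n Λ a φ G N t =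
      ∑ t ∈ range (N + a + 1) ∪ T, unf_F n Λ a φ G N t := by
    refine Finset.sum_subset Finset.subset_union_left fun t _ ht => ?_
    refine unf_zero n Λ a φ G N t fun x hx he => ht ?_
    rw [Finset.mem_Icc] at hx
    rw [← he, Finset.mem_range]
    have := Nat.div_le_self (x + a) (n * Λ)
    omega
  have h2 : ∑ t ∈ T, unf_F n Λ a φ G N t =
      ∑ t ∈ range (N + a + 1) ∪ T, unf_F n Λ a φ G N t := by
    refine Finset.sum_subset Finset.subset_union_right fun t _ ht => ?_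
    refine unf_zero n Λ a φ G N t fun x hx he => ht ?_
    rw [← he]
    exact hT x hx
  rw [unf_BS, h1, h2]

theorem unf_per (n : ℕ) (φ : ℕ → ℂ) (h : ∀ x, φ (x + n) = φ x) (x b : ℕ) :
    φ (x + n * b) = φ x := by
  induction b with
  | zero => rw [mul_zero, add_zero]
  | succ b ih => rw [mul_add, mul_one, ← add_assoc, h, ih]

theorem unf_mod (n : ℕ) (φ : ℕ → ℂ) (h : ∀ x, φ (x + n) = φ x) (x : ℕ) :
    φ x = φ (x % n) := by
  conv_lhs => rw [← Nat.mod_add_div x n]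
  exact unf_per n φ h _ _

theorem unf_shift (n Λ a : ℕ) (hn : 1 ≤ n) (hΛ : 1 ≤ Λ) (φ G : ℕ → ℂ)
    (hG : ∀ x, G (x + Λ) = G x) (N : ℕ) :
    BS n Λ a φ G N = BS n Λ (a % (n * Λ)) φ G N := by
  classical
  obtain ⟨b, hb⟩ : ∃ b, b = a / (n * Λ) := ⟨_, rfl⟩
  obtain ⟨a', ha'⟩ : ∃ a', a' = a % (n * Λ) := ⟨_, rfl⟩
  have hpos : 0 < n * Λ := Nat.mul_pos hn hΛ
  have hab : a = a' + n * Λ * b := by rw [ha', hb, Nat.mod_add_div]
  have hdiv : ∀ x, (x + a) / (n * Λ) = (x + a') / (n * Λ) + b := by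
    intro x
    rw [hab, ← add_assoc, Nat.add_mul_div_left _ _ hpos]
  have hdiv2 : ∀ x, (x + a) / n = (x + a') / n + Λ * b := by
    intro x
    rw [hab, ← add_assoc, mul_assoc, Nat.add_mul_div_left _ _ hn]
  rw [← ha', unf_set n Λ a φ G N ((range (N + a' + 1)).image (fun t => t + b)) ?_, unf_BS,
    Finset.sum_image (fun s _ t _ h => Nat.add_right_cancel h)]
  · refine Finset.sum_congr rfl fun t _ => ?_
    unfold unf_F
    have hfil : (Icc 1 N).filter (fun x => (x + a) / (n * Λ) = t + b) =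
        (Icc 1 N).filter (fun x => (x + a') / (n * Λ) = t) := by
      refine Finset.filter_congr fun x _ => ?_
      rw [hdiv x]
      exact ⟨fun h => Nat.add_right_cancel h, fun h => by rw [h]⟩
    rw [hfil]
    congr 1
    refine Finset.sum_congr rfl fun x _ => ?_
    rw [hdiv2 x, unf_per Λ G hG]
  · intro x hx
    rw [Finset.mem_Icc] at hx
    refine Finset.mem_image.mpr ⟨(x + a') / (n * Λ), ?_, (hdiv x).symm⟩
    rw [Finset.mem_range]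
    have := Nat.div_le_self (x + a') (n * Λ)
    omega

theorem unf_diff (n Λ a : ℕ) (φ G φ' G' : ℕ → ℂ) (N : ℕ) (δ : ℝ)
    (h : ∀ x y, ‖φ x * G y - φ' x * G' y‖ ≤ δ) :
    BS n Λ a φ G N ≤ BS n Λ a φ' G' N + δ * N := by
  classical
  have hmu : ∀ x : ℕ, ‖((ArithmeticFunction.moebius x : ℤ) : ℂ)‖ ≤ 1 := by
    intro x
    rw [Complex.norm_intCast]
    exact_mod_cast ArithmeticFunction.abs_moebius_le_one
  have hone : ∀ t, unf_F n Λ a φ G N t ≤ unf_F n Λ a φ' G' N t +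
      (((Icc 1 N).filter (fun x => (x + a) / (n * Λ) = t)).card : ℝ) * δ := by
    intro t
    unfold unf_F
    generalize (Icc 1 N).filter (fun x => (x + a) / (n * Λ) = t) = A
    have h1 : ∑ x ∈ A, ((ArithmeticFunction.moebius x : ℤ) : ℂ) * (φ x * G ((x + a) / n)) =
        ∑ x ∈ A, ((ArithmeticFunction.moebius x : ℤ) : ℂ) * (φ' x * G' ((x + a) / n)) +
        ∑ x ∈ A, ((ArithmeticFunction.moebius x : ℤ) : ℂ) *
          (φ x * G ((x + a) / n) - φ' x * G' ((x + a) / n)) := by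
      rw [← Finset.sum_add_distrib]
      refine Finset.sum_congr rfl fun x _ => ?_
      ring
    rw [h1]
    refine (norm_add_le _ _).trans ?_
    refine add_le_add le_rfl ?_
    refine (norm_sum_le _ _).trans ?_
    rw [← nsmul_eq_mul]
    refine Finset.sum_le_card_nsmul _ _ _ fun x _ => ?_
    rw [norm_mul]
    calc _ ≤ 1 * δ := mul_le_mul (hmu x) (h x _) (norm_nonneg _) zero_le_one
      _ = δ := one_mul δ
  have hcard : (∑ t ∈ range (N + a + 1),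
      (((Icc 1 N).filter (fun x => (x + a) / (n * Λ) = t)).card : ℝ)) = N := by
    have h2 := Finset.card_eq_sum_card_fiberwise (f := fun x : ℕ => (x + a) / (n * Λ))
      (s := Icc 1 N) (t := range (N + a + 1)) (fun x hx => by
        have hx' : x ∈ Icc 1 N := hx
        rw [Finset.mem_Icc] at hx'
        have h3 : (x + a) / (n * Λ) ∈ range (N + a + 1) := by
          rw [Finset.mem_range]
          have := Nat.div_le_self (x + a) (n * Λ)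
          omega
        exact h3)
    rw [Nat.card_Icc, Nat.add_sub_cancel] at h2
    conv_rhs => rw [h2]
    push_cast
    rfl
  rw [unf_BS, unf_BS]
  refine (Finset.sum_le_sum fun t _ => hone t).trans ?_
  rw [Finset.sum_add_distrib, ← Finset.sum_mul, hcard, mul_comm δ]

theorem st_UNF (h1 : ST_UNI) : ST_UNF := by
  intro η hη
  obtain ⟨n₀, hn₀⟩ := h1 (η / 2) (by positivity)
  refine ⟨max n₀ 1, fun n hn => ?_⟩
  have hn1 : 1 ≤ n := (le_max_right _ _).trans hn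
  obtain ⟨Λ₀, hΛ₀⟩ := hn₀ n ((le_max_left _ _).trans hn)
  refine ⟨max Λ₀ 1, fun Λ hΛ => ?_⟩
  have hΛ1 : 1 ≤ Λ := (le_max_right _ _).trans hΛ
  have hΛ2 : Λ₀ ≤ Λ := (le_max_left _ _).trans hΛ
  obtain ⟨Z, hZsub, hZfin, hZcov⟩ := (isCompact_closedBall (0 : ℂ) 1).finite_cover_balls
    (show (0 : ℝ) < η / 8 by positivity)
  have : Finite Z := hZfin
  have hZ1 : ∀ w : Z, ‖(w : ℂ)‖ ≤ 1 := fun w => by
    have := hZsub w.2
    rwa [Metric.mem_closedBall, dist_zero_right] at this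
  have hZn : ∀ z : ℂ, ‖z‖ ≤ 1 → ∃ w : Z, ‖z - w‖ ≤ η / 8 := by
    intro z hz
    have hz' : z ∈ Metric.closedBall (0 : ℂ) 1 := by
      rwa [Metric.mem_closedBall, dist_zero_right]
    obtain ⟨w, hw⟩ := Set.mem_iUnion.mp (hZcov hz')
    obtain ⟨hwZ, hw2⟩ := Set.mem_iUnion.mp hw
    rw [Metric.mem_ball, dist_eq_norm] at hw2
    exact ⟨⟨w, hwZ⟩, hw2.le⟩
  have hev : ∀ᶠ N : ℕ in atTop, ∀ i : (Fin n → Z) × (Fin Λ → Z) × Fin (n * Λ),
      BS n Λ i.2.2 (fun x => (i.1 ⟨x % n, Nat.mod_lt _ hn1⟩ : ℂ))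
        (fun x => (i.2.1 ⟨x % Λ, Nat.mod_lt _ hΛ1⟩ : ℂ)) N ≤ η / 2 * N := by
    rw [eventually_all]
    intro i
    refine hΛ₀ Λ i.2.2 _ _ hΛ2 (fun x => ⟨hZ1 _, hZ1 _⟩) (fun x => ?_) (fun x => ?_)
    · simp only [Nat.add_mod_right]
    · simp only [Nat.add_mod_right]
  obtain ⟨N₀, hN₀⟩ := eventually_atTop.mp hev
  refine ⟨N₀, fun N a φ G hN hb hφ hG => ?_⟩
  choose f hf using fun x : Fin n => hZn (φ x) (hb x).1
  choose g hg using fun x : Fin Λ => hZn (G x) (hb x).2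
  have hpos : 0 < n * Λ := Nat.mul_pos hn1 hΛ1
  have key := hN₀ N hN (f, g, ⟨a % (n * Λ), Nat.mod_lt _ hpos⟩)
  have hG' : ∀ x, (fun x => (g ⟨x % Λ, Nat.mod_lt _ hΛ1⟩ : ℂ)) (x + Λ) =
      (fun x => (g ⟨x % Λ, Nat.mod_lt _ hΛ1⟩ : ℂ)) x := by
    intro x
    simp only [Nat.add_mod_right]
  have hshift := unf_shift n Λ a hn1 hΛ1 (fun x => (f ⟨x % n, Nat.mod_lt _ hn1⟩ : ℂ))
    (fun x => (g ⟨x % Λ, Nat.mod_lt _ hΛ1⟩ : ℂ)) hG' N
  have hd := unf_diff n Λ a φ G (fun x => (f ⟨x % n, Nat.mod_lt _ hn1⟩ : ℂ))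
    (fun x => (g ⟨x % Λ, Nat.mod_lt _ hΛ1⟩ : ℂ)) N (η / 4) (fun x y => by
      have e1 : ‖φ x - (f ⟨x % n, Nat.mod_lt _ hn1⟩ : ℂ)‖ ≤ η / 8 := by
        rw [unf_mod n φ hφ x]
        exact hf ⟨x % n, Nat.mod_lt _ hn1⟩
      have e2 : ‖G y - (g ⟨y % Λ, Nat.mod_lt _ hΛ1⟩ : ℂ)‖ ≤ η / 8 := by
        rw [unf_mod Λ G hG y]
        exact hg ⟨y % Λ, Nat.mod_lt _ hΛ1⟩
      have e3 : φ x * G y - (f ⟨x % n, Nat.mod_lt _ hn1⟩ : ℂ) * (g ⟨y % Λ, Nat.mod_lt _ hΛ1⟩ : ℂ) =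
          (φ x - (f ⟨x % n, Nat.mod_lt _ hn1⟩ : ℂ)) * G y +
          (f ⟨x % n, Nat.mod_lt _ hn1⟩ : ℂ) * (G y - (g ⟨y % Λ, Nat.mod_lt _ hΛ1⟩ : ℂ)) := by
        ring
      show ‖φ x * G y - (f ⟨x % n, Nat.mod_lt _ hn1⟩ : ℂ) *
        (g ⟨y % Λ, Nat.mod_lt _ hΛ1⟩ : ℂ)‖ ≤ η / 4
      rw [e3]
      refine (norm_add_le _ _).trans ?_
      rw [norm_mul, norm_mul]
      have e4 := mul_le_mul e1 (hb y).2 (norm_nonneg _) (by positivity)
      have e5 := mul_le_mul (hZ1 (f ⟨x % n, Nat.mod_lt _ hn1⟩)) e2 (norm_nonneg _) zero_le_one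
      linarith)
  rw [hshift] at hd
  have key' : BS n Λ (a % (n * Λ)) (fun x => (f ⟨x % n, Nat.mod_lt _ hn1⟩ : ℂ))
    (fun x => (g ⟨x % Λ, Nat.mod_lt _ hΛ1⟩ : ℂ)) N ≤ η / 2 * N := key
  have hNn : (0 : ℝ) ≤ N := Nat.cast_nonneg N
  nlinarith

end Pool.Agent.Helper13.FR
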